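import Pool.Agent.TH801.TU.Block

set_option autoImplicit false

/-!
# Short blocks with many elements, for the image of a set of zeros under a bi-Lipschitz function

The proofs are those of `Pool.Agent.TH801.TU.Block`, where the function is the multiplication by a
fixed real number; here the function is arbitrary and the constants do not depend on it.
-/

namespace Pool.Agent.TH99.AR

open Complex Filter Topology MeasureTheory Set
open Pool.Agent.H452R4.LI
open Pool.Agent.H452R4.LI.CORaux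
open Pool.Agent.TH801.TU

/-- `f` is bi-Lipschitz on `B` with the constant `K` -/
def Lip (K : ℝ) (B : Finset ℝ) (f : ℝ → ℝ) : Prop :=
  ∀ b ∈ B, ∀ b' ∈ B, |b - b'| ≤ K * |f b - f b'| ∧ |f b - f b'| ≤ K * |b - b'|

lemma Lip.mono {K : ℝ} {B B' : Finset ℝ} {f : ℝ → ℝ} (h : Lip K B f) (hB : B' ⊆ B) : Lip K B' f :=
  fun b hb b' hb' => h b (hB hb) b' (hB hb')

lemma Lip.neg {K : ℝ} {B : Finset ℝ} {f : ℝ → ℝ} (h : Lip K B f) : Lip K B (fun b => -f b) := by
  intro b hb b' hb'
  have h1 := h b hb b' hb'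
  have h2 : |-f b - -f b'| = |f b - f b'| := by
    rw [← abs_neg]; congr 1; ring
  simp only [h2]
  exact h1

lemma Lip.injOn {K : ℝ} {B : Finset ℝ} {f : ℝ → ℝ} (h : Lip K B f) :
    Set.InjOn f (B : Set ℝ) := by
  intro b hb b' hb' hbb
  have h1 := (h b hb b' hb').1
  rw [hbb, sub_self, abs_zero, mul_zero] at h1
  have h2 := abs_nonneg (b - b')
  have h3 : |b - b'| = 0 := le_antisymm h1 h2
  rw [abs_eq_zero] at h3
  linarith

/-- a block of the set of zeros, without clusters -/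
lemma blockB' (K η κ : ℝ) (hK : 1 ≤ K) (hη : 0 < η) (hκ : 0 < κ) :
    ∃ K1 η1 T1 : ℝ, 1 ≤ K1 ∧ 0 < η1 ∧ ∀ T : ℝ, T1 ≤ T → ∀ (B : Finset ℝ) (f : ℝ → ℝ),
      (∀ b ∈ B, 0 < b ∧ b ≤ K * T ∧ riemannZeta (1 / 2 + I * (b : ℂ)) = 0) → Lip K B f →
      η * T * Real.log T ≤ B.card →
      ∃ B1 ⊆ B, ∃ β : ℝ, (∀ b ∈ B1, |f b - β| ≤ κ * T) ∧ η1 * T * Real.log T ≤ B1.card ∧
        ∀ X : ℝ, κ * T ≤ X → ∀ y : ℝ,
          ((B1.filter (fun b => |f b - y| ≤ 1 / Real.log X)).card : ℝ) ≤ K1 := by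
  classical
  obtain ⟨C5, hC5, hzc⟩ := Pool.Agent.H452R4.LI.zc
  obtain ⟨ε0, hε0⟩ : ∃ ε0 : ℝ, ε0 = η / (8 * C5) := ⟨_, rfl⟩
  have hε0p : 0 < ε0 := by rw [hε0]; positivity
  have hK0 : 0 < K := by linarith
  obtain ⟨l, hl⟩ : ∃ l : ℝ, l = min ε0 (κ / K) := ⟨_, rfl⟩
  have hl0 : 0 < l := by rw [hl]; exact lt_min hε0p (by positivity)
  have hl1 : l ≤ ε0 := by rw [hl]; exact min_le_left _ _
  have hl2 : K * l ≤ κ := by
    have h1 : l ≤ κ / K := by rw [hl]; exact min_le_right _ _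
    rw [le_div_iff₀ hK0] at h1
    linarith
  obtain ⟨N, hN⟩ : ∃ N : ℕ, N = ⌈K / l⌉₊ := ⟨_, rfl⟩
  have hN1 : K / l ≤ N := by rw [hN]; exact Nat.le_ceil _
  have hN2 : (N : ℝ) ≤ K / l + 1 := by rw [hN]; exact (Nat.ceil_lt_add_one (by positivity)).le
  have hN0 : (0 : ℝ) < N := lt_of_lt_of_le (by positivity) hN1
  have hNpos : 1 ≤ N := by exact_mod_cast hN0
  obtain ⟨K3, hK3⟩ : ∃ K3 : ℝ, K3 = K + 2 * ε0 := ⟨_, rfl⟩
  have hK31 : 1 ≤ K3 := by rw [hK3]; linarith
  have hK3N : ε0 + N * l ≤ K3 := by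
    have h1 : N * l ≤ K + l := by
      calc (N : ℝ) * l ≤ (K / l + 1) * l := by gcongr
        _ = K + l := by field_simp
    rw [hK3]; linarith
  obtain ⟨R, hR⟩ : ∃ R : ℝ, R = 8 * K := ⟨_, rfl⟩
  have hR1 : 1 ≤ R := by rw [hR]; linarith
  obtain ⟨K1, T0, hK1, hclus⟩ := clus R (η / (8 * N * K3)) hR1 (by positivity)
  refine ⟨K1, η / (4 * N), max (max (max K 3) (max K3 (T0 / ε0))) (max (Real.exp 1 / ε0)
    (max (1 / κ ^ 2) (Real.exp 1))), hK1, by positivity, ?_⟩
  intro T hT B f hB hf cB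
  have hTK : K ≤ T := (le_max_left _ _).trans ((le_max_left _ _).trans ((le_max_left _ _).trans hT))
  have hT3 : 3 ≤ T := (le_max_right _ _).trans ((le_max_left _ _).trans ((le_max_left _ _).trans hT))
  have hTK3 : K3 ≤ T :=
    (le_max_left _ _).trans ((le_max_right _ _).trans ((le_max_left _ _).trans hT))
  have hTT0 : T0 / ε0 ≤ T :=
    (le_max_right _ _).trans ((le_max_right _ _).trans ((le_max_left _ _).trans hT))
  have hTε : Real.exp 1 / ε0 ≤ T := (le_max_left _ _).trans ((le_max_right _ _).trans hT)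
  have hTκ : 1 / κ ^ 2 ≤ T :=
    (le_max_left _ _).trans ((le_max_right _ _).trans ((le_max_right _ _).trans hT))
  have hTe : Real.exp 1 ≤ T :=
    (le_max_right _ _).trans ((le_max_right _ _).trans ((le_max_right _ _).trans hT))
  have hT0 : 0 < T := by linarith
  have hL : 1 ≤ Real.log T := (Real.le_log_iff_exp_le hT0).2 hTe
  set L := Real.log T with hLd
  have hL0 : 0 < L := by linarith
  have hεTe : Real.exp 1 ≤ ε0 * T := by
    rw [div_le_iff₀ hε0p] at hTε; linarith
  have hεT : 1 ≤ ε0 * T := (Real.one_le_exp (by norm_num)).trans hεTe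
  have hKT : 3 ≤ K * T := by nlinarith
  have dB := hzc (K * T) B hKT hB
  have hlogKT : Real.log (K * T) ≤ 2 * L := log_two_mul K hK T hTK
  -- remove the low zeros
  set B' := B.filter (fun b => ε0 * T < b) with hB'
  have hrem : ((B.filter (fun b => ¬ ε0 * T < b)).card : ℝ) ≤ η / 2 * T * L := by
    have h1 := dens_interval dB 0 (ε0 * T) (by positivity)
    have h2 : (B.filter (fun b => ¬ ε0 * T < b)) ⊆ B.filter (fun a => 0 ≤ a ∧ a ≤ 0 + ε0 * T) := by
      intro b hb
      rw [Finset.mem_filter] at hb ⊢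
      obtain ⟨h3, h4⟩ := hb
      push Not at h4
      exact ⟨h3, (hB b h3).1.le, by linarith⟩
    have h3 : ((B.filter (fun b => ¬ ε0 * T < b)).card : ℝ) ≤
        C5 * Real.log (K * T) * (ε0 * T + 1) := le_trans (by exact_mod_cast Finset.card_le_card h2) h1
    refine h3.trans ?_
    calc C5 * Real.log (K * T) * (ε0 * T + 1) ≤ C5 * (2 * L) * (ε0 * T + ε0 * T) := by gcongr
      _ = 4 * C5 * ε0 * (T * L) := by ring
      _ = η / 2 * T * L := by rw [hε0]; field_simp; ring
  have hcard : (B.card : ℝ) = B'.card + (B.filter (fun b => ¬ ε0 * T < b)).card := by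
    rw [hB']
    exact_mod_cast (Finset.card_filter_add_card_filter_not (s := B) (fun b => ε0 * T < b)).symm
  have hB'c : η / 2 * T * L ≤ B'.card := by linarith
  obtain ⟨x0, hx0a, hx0b, hx0⟩ := pig B' (ε0 * T) (l * T) (by positivity) N hNpos (by
    intro x hx
    rw [hB', Finset.mem_filter] at hx
    have h1 := (hB x hx.1).2.1
    have h3 : K * T ≤ N * (l * T) := by
      rw [div_le_iff₀ hl0] at hN1
      calc K * T ≤ (N * l) * T := by gcongr
        _ = _ := by ring
    refine ⟨hx.2, ?_⟩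
    have : 0 < ε0 * T := by positivity
    linarith)
  have hx0pos : 0 < x0 := lt_of_lt_of_le (by positivity) hx0a
  have hx0K : x0 ≤ K3 * T := by
    refine hx0b.trans ?_
    calc ε0 * T + N * (l * T) = (ε0 + N * l) * T := by ring
      _ ≤ K3 * T := by gcongr
  have hx0T0 : T0 ≤ x0 := by
    refine le_trans ?_ hx0a
    rw [div_le_iff₀ hε0p] at hTT0
    linarith
  have hx0one : 1 ≤ x0 := hεT.trans hx0a
  have hlx : 0 < Real.log x0 := by
    have h1 : 1 ≤ Real.log x0 := (Real.le_log_iff_exp_le hx0pos).2 (hεTe.trans hx0a)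
    linarith
  have hlogx0 : Real.log x0 ≤ 2 * L :=
    (Real.log_le_log hx0pos hx0K).trans (log_two_mul K3 hK31 T hTK3)
  set B2 := B'.filter (fun x => x0 < x ∧ x ≤ x0 + l * T) with hB2
  have hB2B : ∀ b ∈ B2, b ∈ B ∧ x0 < b ∧ b ≤ x0 + l * T := by
    intro b hb
    rw [hB2, Finset.mem_filter, hB', Finset.mem_filter] at hb
    exact ⟨hb.1.1, hb.2.1, hb.2.2⟩
  have hB2c : η / (2 * N) * T * L ≤ B2.card := by
    have h1 : η / 2 * T * L ≤ N * (B2.card : ℝ) := hB'c.trans hx0
    calc η / (2 * N) * T * L = (η / 2 * T * L) / N := by field_simp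
      _ ≤ _ := by rw [div_le_iff₀ hN0]; linarith
  have hcl := hclus x0 hx0T0 B2 (by
    intro b hb
    obtain ⟨h1, h2, h3⟩ := hB2B b hb
    refine ⟨h2, ?_, (hB b h1).2.2⟩
    have : l * T ≤ ε0 * T := by gcongr
    linarith)
  set B1 := B2.filter (fun γ => ¬ K1 <
    ((B2.filter (fun γ' => |γ' - γ| ≤ R / Real.log x0)).card : ℝ)) with hB1
  have hcard2 : (B2.card : ℝ) = (B2.filter (fun γ => K1 <
      ((B2.filter (fun γ' => |γ' - γ| ≤ R / Real.log x0)).card : ℝ))).card + B1.card := by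
    rw [hB1]
    exact_mod_cast (Finset.card_filter_add_card_filter_not (s := B2) _).symm
  have hcl2 : η / (8 * N * K3) * x0 * Real.log x0 ≤ η / (4 * N) * T * L := by
    calc η / (8 * N * K3) * x0 * Real.log x0 ≤ η / (8 * N * K3) * (K3 * T) * (2 * L) := by gcongr
      _ = η / (4 * N) * T * L := by field_simp; norm_num
  have hB1B2 : B1 ⊆ B2 := by rw [hB1]; exact Finset.filter_subset _ _
  have hB2B' : B2 ⊆ B := fun b hb => (hB2B b hb).1
  have cB1 : η / (4 * N) * T * L ≤ B1.card := by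
    have h5 : η / (2 * N) * T * L = η / (4 * N) * T * L + η / (4 * N) * T * L := by
      field_simp; ring
    linarith
  have hB1pos : 0 < (B1.card : ℝ) := lt_of_lt_of_le (by positivity) cB1
  obtain ⟨bs, hbs⟩ : B1.Nonempty := Finset.card_pos.1 (by exact_mod_cast hB1pos)
  refine ⟨B1, hB1B2.trans hB2B', f bs, ?_, cB1, ?_⟩
  · intro b hb
    obtain ⟨h1, h2, h3⟩ := hB2B b (hB1B2 hb)
    obtain ⟨h1', h2', h3'⟩ := hB2B bs (hB1B2 hbs)
    have h4 := (hf b h1 bs h1').2
    have h5 : |b - bs| ≤ l * T := by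
      rw [abs_le]; constructor <;> linarith
    calc |f b - f bs| ≤ K * |b - bs| := h4
      _ ≤ K * (l * T) := by gcongr
      _ = (K * l) * T := by ring
      _ ≤ κ * T := by gcongr
  · intro X hX y
    have hκT : 0 < κ * T := by positivity
    have hX0 : 0 < X := hκT.trans_le hX
    have hlogX : L ≤ 2 * Real.log X := by
      have h1 : Real.log (κ * T) ≤ Real.log X := Real.log_le_log hκT hX
      rw [Real.log_mul hκ.ne' hT0.ne'] at h1
      have h2 : Real.log (1 / κ ^ 2) ≤ L := Real.log_le_log (by positivity) hTκ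
      rw [one_div, Real.log_inv, Real.log_pow] at h2
      push_cast at h2
      linarith
    have hlogX0 : 0 < Real.log X := by linarith
    rcases (B1.filter (fun b => |f b - y| ≤ 1 / Real.log X)).eq_empty_or_nonempty with he | ⟨b0, hb0⟩
    · rw [he]; simp; linarith
    · rw [Finset.mem_filter] at hb0
      have hb01 := hb0.1
      rw [hB1, Finset.mem_filter] at hb01
      have h1 := hb01.2
      push Not at h1
      refine le_trans ?_ h1
      have h2 : (B1.filter (fun b => |f b - y| ≤ 1 / Real.log X)) ⊆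
          (B2.filter (fun γ' => |γ' - b0| ≤ R / Real.log x0)) := by
        intro b hb
        rw [Finset.mem_filter] at hb ⊢
        refine ⟨hB1B2 hb.1, ?_⟩
        have h3 : |b - b0| ≤ K * (2 / Real.log X) := by
          refine (hf b (hB2B' (hB1B2 hb.1)) b0 (hB2B' (hB1B2 hb0.1))).1.trans ?_
          apply mul_le_mul_of_nonneg_left _ hK0.le
          have h4 : f b - f b0 = (f b - y) - (f b0 - y) := by ring
          rw [h4]
          refine (abs_sub _ _).trans ?_
          calc |f b - y| + |f b0 - y| ≤ 1 / Real.log X + 1 / Real.log X :=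
                add_le_add hb.2 hb0.2
            _ = 2 / Real.log X := by ring
        refine h3.trans ?_
        rw [hR, ← mul_div_assoc, div_le_div_iff₀ hlogX0 hlx]
        have h6 : Real.log x0 ≤ 4 * Real.log X := by linarith
        calc K * 2 * Real.log x0 ≤ K * 2 * (4 * Real.log X) := by gcongr
          _ = 8 * K * Real.log X := by ring
      exact_mod_cast Finset.card_le_card h2

/-- elements with nearby images -/
lemma card_near {K : ℝ} (hK : 0 < K) {B : Finset ℝ} {w : ℝ} (hw : 0 ≤ w) {f : ℝ → ℝ}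
    (hd : dens B w) (hf : Lip K B f) (y h : ℝ) (hh : 0 ≤ h) :
    ((B.filter (fun b => |f b - y| ≤ h)).card : ℝ) ≤ w * (4 * K * h + 1) := by
  classical
  rcases (B.filter (fun b => |f b - y| ≤ h)).eq_empty_or_nonempty with he | ⟨b0, hb0⟩
  · rw [he]; simp; positivity
  · rw [Finset.mem_filter] at hb0
    have h1 := dens_interval hd (b0 - 2 * K * h) (4 * K * h) (by positivity)
    refine le_trans ?_ h1
    have h2 : (B.filter (fun b => |f b - y| ≤ h)) ⊆
        B.filter (fun a => b0 - 2 * K * h ≤ a ∧ a ≤ b0 - 2 * K * h + 4 * K * h) := by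
      intro b hb
      rw [Finset.mem_filter] at hb ⊢
      have h3 := (hf b hb.1 b0 hb0.1).1
      have h4 : |f b - f b0| ≤ 2 * h := by
        have e : f b - f b0 = (f b - y) - (f b0 - y) := by ring
        rw [e]
        refine (abs_sub _ _).trans ?_
        linarith [hb.2, hb0.2]
      have h5 : |b - b0| ≤ 2 * K * h := by
        refine h3.trans ?_
        calc K * |f b - f b0| ≤ K * (2 * h) := by gcongr
          _ = 2 * K * h := by ring
      have h6 := abs_le.1 h5
      exact ⟨hb.1, by linarith, by linarith⟩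
    exact_mod_cast Finset.card_le_card h2

/-- two such blocks at a positive distance -/
lemma blockBB' (K η : ℝ) (hK : 1 ≤ K) (hη : 0 < η) :
    ∃ κ K1 η1 T1 : ℝ, 0 < κ ∧ 1 ≤ K1 ∧ 0 < η1 ∧ ∀ T : ℝ, T1 ≤ T → ∀ (B : Finset ℝ) (f : ℝ → ℝ),
      (∀ b ∈ B, 0 < b ∧ b ≤ K * T ∧ riemannZeta (1 / 2 + I * (b : ℂ)) = 0) → Lip K B f →
      η * T * Real.log T ≤ B.card →
      ∃ β1 β2 : ℝ, 20 * κ * T ≤ |β1 - β2| ∧ ∀ β : ℝ, (β = β1 ∨ β = β2) → ∃ B1 ⊆ B,
        (∀ b ∈ B1, |f b - β| ≤ κ * T) ∧ η1 * T * Real.log T ≤ B1.card ∧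
        ∀ X : ℝ, κ * T ≤ X → ∀ y : ℝ,
          ((B1.filter (fun b => |f b - y| ≤ 1 / Real.log X)).card : ℝ) ≤ K1 := by
  classical
  obtain ⟨C5, hC5, hzc⟩ := Pool.Agent.H452R4.LI.zc
  have hK0 : 0 < K := by linarith
  obtain ⟨κ, hκ⟩ : ∃ κ : ℝ, κ = η / (356 * K * C5) := ⟨_, rfl⟩
  have hκ0 : 0 < κ := by rw [hκ]; positivity
  obtain ⟨K1, η1, T1, hK1, hη1, h1⟩ := blockB' K η κ hK hη hκ0
  obtain ⟨K2, η2, T2, hK2, hη2, h2⟩ := blockB' K (η / 2) κ hK (by positivity) hκ0
  refine ⟨κ, max K1 K2, min η1 η2, max (max T1 T2) (max (max K 3) (1 / κ)), hκ0,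
    hK1.trans (le_max_left _ _), lt_min hη1 hη2, ?_⟩
  intro T hT B f hB hf cB
  have hTT1 : T1 ≤ T := (le_max_left _ _).trans ((le_max_left _ _).trans hT)
  have hTT2 : T2 ≤ T := (le_max_right _ _).trans ((le_max_left _ _).trans hT)
  have hTK : K ≤ T := (le_max_left _ _).trans ((le_max_left _ _).trans ((le_max_right _ _).trans hT))
  have hT3 : 3 ≤ T := (le_max_right _ _).trans ((le_max_left _ _).trans ((le_max_right _ _).trans hT))
  have hTκ : 1 / κ ≤ T := (le_max_right _ _).trans ((le_max_right _ _).trans hT)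
  have hT0 : 0 < T := by linarith
  have hL : 0 < Real.log T := Real.log_pos (by linarith)
  set L := Real.log T with hLd
  have hTL : 0 < T * L := by positivity
  have hKT : 3 ≤ K * T := hT3.trans (le_mul_of_one_le_left hT0.le hK)
  obtain ⟨B1, hB1B, β1, hβ1, cB1, hcl1⟩ := h1 T hTT1 B f hB hf cB
  obtain ⟨B', hB'⟩ : ∃ B' : Finset ℝ, B' = B.filter (fun b => 22 * κ * T ≤ |f b - β1|) := ⟨_, rfl⟩
  have hrem : ((B.filter (fun b => ¬ 22 * κ * T ≤ |f b - β1|)).card : ℝ) ≤ η / 2 * T * L := by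
    have dB := hzc (K * T) B hKT hB
    have hlogKT : Real.log (K * T) ≤ 2 * L := log_two_mul K hK T hTK
    have hlog0 : 0 ≤ Real.log (K * T) := Real.log_nonneg (by linarith)
    have e1 := card_near hK0 (by positivity) dB hf β1 (22 * κ * T) (by positivity)
    have e2 : (B.filter (fun b => ¬ 22 * κ * T ≤ |f b - β1|)) ⊆
        B.filter (fun b => |f b - β1| ≤ 22 * κ * T) := by
      intro b hb
      rw [Finset.mem_filter] at hb ⊢
      obtain ⟨h3, h4⟩ := hb
      push Not at h4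
      exact ⟨h3, h4.le⟩
    have e3 : ((B.filter (fun b => ¬ 22 * κ * T ≤ |f b - β1|)).card : ℝ) ≤
        C5 * Real.log (K * T) * (4 * K * (22 * κ * T) + 1) :=
      le_trans (by exact_mod_cast Finset.card_le_card e2) e1
    refine e3.trans ?_
    have e4 : 1 ≤ K * κ * T := by
      rw [div_le_iff₀ hκ0] at hTκ
      have : κ * T ≤ K * (κ * T) := le_mul_of_one_le_left (by positivity) hK
      linarith
    calc C5 * Real.log (K * T) * (4 * K * (22 * κ * T) + 1)
        ≤ C5 * (2 * L) * (4 * K * (22 * κ * T) + K * κ * T) := by gcongr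
      _ = 178 * C5 * K * κ * (T * L) := by ring
      _ = η / 2 * T * L := by rw [hκ]; field_simp; ring
  have hcard : (B.card : ℝ) = B'.card + (B.filter (fun b => ¬ 22 * κ * T ≤ |f b - β1|)).card := by
    rw [hB']
    exact_mod_cast (Finset.card_filter_add_card_filter_not (s := B)
      (fun b => 22 * κ * T ≤ |f b - β1|)).symm
  have hB'B : B' ⊆ B := by rw [hB']; exact Finset.filter_subset _ _
  obtain ⟨B2, hB2B, β2, hβ2, cB2, hcl2⟩ := h2 T hTT2 B' f (fun b hb => hB b (hB'B hb))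
    (hf.mono hB'B) (by
    rw [← hLd]
    have : η * T * L = η / 2 * T * L + η / 2 * T * L := by ring
    linarith)
  rw [← hLd] at cB1 cB2
  have hB2pos : 0 < (B2.card : ℝ) := lt_of_lt_of_le (by positivity) cB2
  obtain ⟨b0, hb0⟩ : B2.Nonempty := Finset.card_pos.1 (by exact_mod_cast hB2pos)
  refine ⟨β1, β2, ?_, ?_⟩
  · have h3 := hB2B hb0
    rw [hB', Finset.mem_filter] at h3
    have h4 := h3.2
    have h5 := hβ2 b0 hb0
    have h6 : f b0 - β1 = (f b0 - β2) - (β1 - β2) := by ring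
    rw [h6] at h4
    have h7 : |(f b0 - β2) - (β1 - β2)| ≤ |f b0 - β2| + |β1 - β2| := by
      have := norm_sub_le (f b0 - β2) (β1 - β2)
      simpa [Real.norm_eq_abs] using this
    have h8 : 0 < κ * T := by positivity
    linarith
  · intro β hβ
    rcases hβ with rfl | rfl
    · refine ⟨B1, hB1B, hβ1, ?_, ?_⟩
      · refine le_trans ?_ cB1
        gcongr
        exact min_le_left _ _
      · intro X hX y
        exact (hcl1 X hX y).trans (le_max_left _ _)
    · refine ⟨B2, hB2B.trans hB'B, hβ2, ?_, ?_⟩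
      · refine le_trans ?_ cB2
        gcongr
        exact min_le_right _ _
      · intro X hX y
        exact (hcl2 X hX y).trans (le_max_right _ _)

end Pool.Agent.TH99.AR
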