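import Pool.Agent.TH801.TU.Main
import Pool.Agent.TH99.AR.Gen

set_option autoImplicit false

/-!
# Relations between ordinates of zeros, solved for one of the ordinates
-/

namespace Pool.Agent.TH99.AR

open Complex Filter Topology MeasureTheory Set
open Pool.Agent.H452R4.LI
open Pool.Agent.H452R4.LI.CORaux
open Pool.Agent.TH801.TU

/-- one representative for every interval `[k, k + 1)` which contains a value -/
lemma repr' {ι : Type} (E : Finset ι) (g : ι → ℝ) (w : ℝ)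
    (hd : ∀ y : ℝ, ((E.filter (fun a => y ≤ g a ∧ g a < y + 1)).card : ℝ) ≤ w) :
    ∃ A' : Finset ℝ, (∀ z ∈ A', ∃ a ∈ E, g a = z) ∧ dens A' 2 ∧ (E.card : ℝ) ≤ w * A'.card := by
  classical
  obtain ⟨A0, hA0, hd0, hc0⟩ : ∃ A0 ⊆ E.image g, dens A0 2 ∧
      (E.image (fun a => ⌊g a⌋)).card ≤ A0.card := by
    have hch : ∀ k : ℤ, ∃ z : ℝ, k ∈ E.image (fun a => ⌊g a⌋) → z ∈ E.image g ∧ ⌊z⌋ = k := by
      intro k
      by_cases h : k ∈ E.image (fun a => ⌊g a⌋)
      · obtain ⟨a, ha, hk⟩ := Finset.mem_image.1 h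
        exact ⟨g a, fun _ => ⟨Finset.mem_image_of_mem _ ha, hk⟩⟩
      · exact ⟨0, fun h' => absurd h' h⟩
    choose rep hrep using hch
    obtain ⟨S, hS⟩ : ∃ S : Finset ℤ, S = E.image (fun a => ⌊g a⌋) := ⟨_, rfl⟩
    rw [← hS] at hrep ⊢
    have hinj : Set.InjOn rep (S : Set ℤ) := by
      intro k hk l hl h
      rw [← (hrep k hk).2, ← (hrep l hl).2, h]
    refine ⟨S.image rep, ?_, ?_, ?_⟩
    · intro z hz
      obtain ⟨k, hk, rfl⟩ := Finset.mem_image.1 hz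
      exact (hrep k hk).1
    · intro x
      have h1 : (((S.image rep).filter (fun a => x ≤ a ∧ a < x + 1)).card) ≤
          ({⌊x⌋, ⌊x⌋ + 1} : Finset ℤ).card := by
        apply Finset.card_le_card_of_injOn (fun a => ⌊a⌋)
        · intro a ha
          rw [Finset.mem_coe, Finset.mem_filter] at ha
          obtain ⟨-, h2, h3⟩ := ha
          have h4 : ⌊x⌋ ≤ ⌊a⌋ := Int.floor_le_floor h2
          have h5 : ⌊a⌋ ≤ ⌊x⌋ + 1 := by
            have h6 : ⌊a⌋ ≤ ⌊x + 1⌋ := Int.floor_le_floor h3.le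
            rwa [Int.floor_add_one] at h6
          rw [Finset.mem_coe, Finset.mem_insert, Finset.mem_singleton]
          show ⌊a⌋ = ⌊x⌋ ∨ ⌊a⌋ = ⌊x⌋ + 1
          omega
        · intro a ha b hb hab
          rw [Finset.mem_coe, Finset.mem_filter] at ha hb
          obtain ⟨k, hk, rfl⟩ := Finset.mem_image.1 ha.1
          obtain ⟨l, hl, rfl⟩ := Finset.mem_image.1 hb.1
          dsimp only at hab
          rw [(hrep k hk).2, (hrep l hl).2] at hab
          rw [hab]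
      have h2 : ({⌊x⌋, ⌊x⌋ + 1} : Finset ℤ).card ≤ 2 := Finset.card_le_two
      exact_mod_cast h1.trans h2
    · rw [Finset.card_image_of_injOn hinj]
  have hw : 0 ≤ w := le_trans (Nat.cast_nonneg _) (hd 0)
  refine ⟨A0, ?_, hd0, ?_⟩
  · intro z hz
    obtain ⟨a, ha, h⟩ := Finset.mem_image.1 (hA0 hz)
    exact ⟨a, ha, h⟩
  · have h1 : ∀ a ∈ E, ⌊g a⌋ ∈ E.image (fun a => ⌊g a⌋) := fun a ha =>
      Finset.mem_image_of_mem _ ha
    rw [Finset.card_eq_sum_card_fiberwise h1]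
    push_cast
    calc ∑ k ∈ E.image (fun a => ⌊g a⌋), ((E.filter (fun a => ⌊g a⌋ = k)).card : ℝ)
        ≤ ∑ _k ∈ E.image (fun a => ⌊g a⌋), w := by
          apply Finset.sum_le_sum
          intro k _
          refine le_trans ?_ (hd (k : ℝ))
          have h2 : E.filter (fun a => ⌊g a⌋ = k) ⊆
              E.filter (fun a => (k : ℝ) ≤ g a ∧ g a < k + 1) := by
            intro a ha
            rw [Finset.mem_filter] at ha ⊢
            refine ⟨ha.1, ?_⟩
            rw [← ha.2]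
            exact ⟨Int.floor_le _, Int.lt_floor_add_one _⟩
          exact_mod_cast Finset.card_le_card h2
      _ = w * (E.image (fun a => ⌊g a⌋)).card := by rw [Finset.sum_const, nsmul_eq_mul, mul_comm]
      _ ≤ w * A0.card := by
          apply mul_le_mul_of_nonneg_left _ hw
          exact_mod_cast hc0

/-- the exceptional set, for arbitrary families of values -/
theorem exc' (K η : ℝ) (hη : 0 < η) : ∃ c T1 : ℝ, 0 < c ∧
    ∀ T : ℝ, T1 ≤ T → ∀ B : Finset ℝ,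
    (∀ b ∈ B, 0 < b ∧ b ≤ K * T ∧ riemannZeta (1 / 2 + I * (b : ℂ)) = 0) →
    η * T * Real.log T ≤ B.card →
    ∀ f : ℝ → ℝ, (∀ b ∈ B, |f b| ≤ K * T) →
    (∀ b ∈ B, ∀ b' ∈ B, |b - b'| ≤ K * |f b - f b'| ∧ |f b - f b'| ≤ K * |b - b'|) →
    ∀ (ι : Type) (A : Finset ι) (g : ι → ℝ) (w : ℝ), (∀ a ∈ A, |g a| ≤ K * T) →
    (∀ y : ℝ, ({a : ι | a ∈ A ∧ y ≤ g a ∧ g a < y + 1}.ncard : ℝ) ≤ w) →
    ({a : ι | a ∈ A ∧ ({γ : ℝ | γ ∈ B ∧ Far (c / Real.log T) (f γ + g a)}.ncard : ℝ) <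
      c * B.card}.ncard : ℝ) ≤ w * T ^ (499 / 500 : ℝ) := by
  classical
  obtain ⟨K0, hK0⟩ : ∃ K0 : ℝ, K0 = max K 1 := ⟨_, rfl⟩
  have hK01 : 1 ≤ K0 := by rw [hK0]; exact le_max_right _ _
  have hKK0 : K ≤ K0 := by rw [hK0]; exact le_max_left _ _
  obtain ⟨c, T1, hc, hgen⟩ := gen' K0 η hK01 hη
  refine ⟨c, max T1 (Real.exp 2), hc, ?_⟩
  intro T hT B hB cB f hfK hf ι A g w hA hd
  have hTT1 : T1 ≤ T := (le_max_left _ _).trans hT
  have hTe : Real.exp 2 ≤ T := (le_max_right _ _).trans hT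
  have hT0 : 0 < T := (Real.exp_pos _).trans_le hTe
  have hT1 : 1 ≤ T := (Real.one_le_exp (by norm_num)).trans hTe
  have hL : 2 ≤ Real.log T := (Real.le_log_iff_exp_le hT0).2 hTe
  have hKT : K * T ≤ K0 * T := mul_le_mul_of_nonneg_right hKK0 hT0.le
  obtain ⟨E, hE⟩ : ∃ E : Finset ι, E = A.filter (fun a =>
    ({γ : ℝ | γ ∈ B ∧ Far (c / Real.log T) (f γ + g a)}.ncard : ℝ) < c * B.card) := ⟨_, rfl⟩
  have hset : {a : ι | a ∈ A ∧ ({γ : ℝ | γ ∈ B ∧ Far (c / Real.log T) (f γ + g a)}.ncard : ℝ) <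
      c * B.card} = (E : Set ι) := by
    ext x
    rw [hE, Finset.mem_coe, Finset.mem_filter]
    rfl
  rw [hset, Set.ncard_coe_finset]
  have hd1 : ∀ y : ℝ, ((A.filter (fun a => y ≤ g a ∧ g a < y + 1)).card : ℝ) ≤ w := by
    intro y
    have h1 : {a : ι | a ∈ A ∧ y ≤ g a ∧ g a < y + 1} =
        ((A.filter (fun a => y ≤ g a ∧ g a < y + 1) : Finset ι) : Set ι) := by
      ext x
      rw [Finset.mem_coe, Finset.mem_filter]
      rfl
    have h2 := hd y
    rwa [h1, Set.ncard_coe_finset] at h2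
  have hw : 0 ≤ w := le_trans (Nat.cast_nonneg _) (hd1 0)
  have hEA : E ⊆ A := by rw [hE]; exact Finset.filter_subset _ _
  obtain ⟨A', hA', hd', hc'⟩ := repr' E g w (by
    intro y
    refine le_trans ?_ (hd1 y)
    exact_mod_cast Finset.card_le_card (Finset.filter_subset_filter _ hEA))
  have hTT : T ^ (9979 / 10000 : ℝ) ≤ T ^ (499 / 500 : ℝ) :=
    Real.rpow_le_rpow_of_exponent_le hT1 (by norm_num)
  refine hc'.trans (mul_le_mul_of_nonneg_left (le_trans ?_ hTT) hw)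
  by_contra hcon
  push Not at hcon
  have hL0 : 0 < Real.log T := by linarith
  have h1 := hgen T hTT1 A' B f (fun z hz => by
      obtain ⟨a, ha, rfl⟩ := hA' z hz
      exact (hA a (hEA ha)).trans hKT)
    (dens_mono hd' (by
      calc (2 : ℝ) ≤ 1 * Real.log T := by linarith
        _ ≤ K0 * Real.log T := by gcongr)) hcon.le
    (fun b hb => ⟨(hB b hb).1, (hB b hb).2.1.trans hKT, (hB b hb).2.2⟩)
    (fun b hb => (hfK b hb).trans hKT)
    (fun b hb b' hb' => ⟨(hf b hb b' hb').1.trans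
      (mul_le_mul_of_nonneg_right hKK0 (abs_nonneg _)), (hf b hb b' hb').2.trans
      (mul_le_mul_of_nonneg_right hKK0 (abs_nonneg _))⟩) cB
    ((A' ×ˢ B).filter (fun p : ℝ × ℝ => Far (c / Real.log T) (p.1 + f p.2)))
    (fun p hp hF => Finset.mem_filter.2 ⟨hp, hF⟩)
  have h2 : (((A' ×ˢ B).filter (fun p : ℝ × ℝ =>
      Far (c / Real.log T) (p.1 + f p.2))).card : ℝ) =
      ∑ z ∈ A', ({γ : ℝ | γ ∈ B ∧ Far (c / Real.log T) (f γ + z)}.ncard : ℝ) := by
    rw [← Finset.sum_boole, Finset.sum_product]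
    refine Finset.sum_congr rfl fun z _ => ?_
    rw [Finset.sum_boole]
    have h3 : {γ : ℝ | γ ∈ B ∧ Far (c / Real.log T) (f γ + z)} =
        ((B.filter (fun γ => Far (c / Real.log T) (z + f γ)) : Finset ℝ) : Set ℝ) := by
      ext γ
      rw [Finset.mem_coe, Finset.mem_filter, add_comm z]
      rfl
    rw [h3, Set.ncard_coe_finset]
  rw [h2] at h1
  have h3 : ∑ z ∈ A', ({γ : ℝ | γ ∈ B ∧ Far (c / Real.log T) (f γ + z)}.ncard : ℝ) ≤
      ∑ _z ∈ A', c * (B.card : ℝ) := Finset.sum_le_sum fun z hz => by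
    obtain ⟨a, ha, rfl⟩ := hA' z hz
    rw [hE, Finset.mem_filter] at ha
    exact ha.2.le
  rw [Finset.sum_const, nsmul_eq_mul] at h3
  have h4 : c * ((A'.card : ℝ) * B.card) = A'.card * (c * B.card) := by ring
  linarith

end Pool.Agent.TH99.AR
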